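import Pool.Agent.Helper41_IR.Stmts
import Pool.Agent.Helper61_BED.Cov

/-!
# Module COVB of squad IR: translation covariance
-/

set_option autoImplicit false

noncomputable section

namespace Pool.Agent.IR.H92

open Matrix Pool.Agent.Anderson Pool.Agent.Loc Pool.Agent.BED

variable {d M : ℕ} [NeZero M]

theorem QM_submatrix (l : ℕ) (x : Tor d M) :
    (QM d M l).submatrix (Equiv.addLeft x) (Equiv.addLeft x) = QM d M l := by
  ext y w
  rw [Matrix.submatrix_apply, Equiv.coe_addLeft]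
  exact QM_add l x y w

theorem QMt_submatrix (l : ℕ) (x : Tor d M) :
    (QM d M l)ᵀ.submatrix (Equiv.addLeft x) (Equiv.addLeft x) = (QM d M l)ᵀ := by
  rw [← Matrix.transpose_submatrix, QM_submatrix]

theorem AP_tr (l : ℕ) (E : ℝ) (V : Tor d M → ℝ) (x : Tor d M) :
    AP l E (tr x V) = (AP l E V).submatrix (Equiv.addLeft x) (Equiv.addLeft x) := by
  unfold AP
  rw [H61.AM_tr, Matrix.submatrix_add, Pi.add_apply, Pi.add_apply]
  congr 1
  rw [Matrix.submatrix_smul, Pi.smul_apply, Pi.smul_apply]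
  congr 1
  rw [Matrix.submatrix_mul_equiv (QM d M l)ᵀ (QM d M l) (Equiv.addLeft x) (Equiv.addLeft x)
    (Equiv.addLeft x) |>.symm, QM_submatrix, QMt_submatrix]

theorem GP_tr (l : ℕ) (E : ℝ) (V : Tor d M → ℝ) (x : Tor d M) :
    GP l E (tr x V) = (GP l E V).submatrix (Equiv.addLeft x) (Equiv.addLeft x) := by
  unfold GP
  rw [AP_tr, Matrix.inv_submatrix_equiv]

theorem BB_tr (l : ℕ) (E : ℝ) (V : Tor d M → ℝ) (x : Tor d M) :
    BB l E (tr x V) = (BB l E V).submatrix (Equiv.addLeft x) (Equiv.addLeft x) := by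
  unfold BB
  rw [GP_tr, Matrix.submatrix_smul, Pi.smul_apply, Pi.smul_apply]
  congr 1
  rw [← Matrix.submatrix_mul_equiv (QM d M l * GP l E V) (QM d M l)ᵀ (Equiv.addLeft x)
    (Equiv.addLeft x) (Equiv.addLeft x), ← Matrix.submatrix_mul_equiv (QM d M l) (GP l E V)
    (Equiv.addLeft x) (Equiv.addLeft x) (Equiv.addLeft x), QM_submatrix, QMt_submatrix]

/-- COVB -/
theorem covb : CovbStmt := by
  intro d M l _ E V x
  refine ⟨fun y w => by rw [GP_tr]; rfl, fun y w => by rw [BB_tr]; rfl, fun δ z μ => ?_⟩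
  obtain ⟨-, hP, -, hD, -, -⟩ := H61.cov d M z V x
  have all : ∀ p : Tor d M → Prop, (∀ y, p (x + y)) ↔ ∀ y, p y :=
    fun p => (Equiv.addLeft x).forall_congr_right
  unfold FlatD
  refine and_congr ?_ (and_congr hP ?_)
  · rw [← all (fun y => -1 ≤ V y)]
    rfl
  · rw [← all (fun y => |DD z V y - μ| ≤ δ * μ)]
    exact forall_congr' fun y => by rw [hD]

end Pool.Agent.IR.H92
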