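import Pool.Agent.Helper41_IR.Stmts
import Pool.Agent.Helper54_BED.All

/-!
# Module FLAT2 of squad IR: the landscape function is flat, with an arbitrary precision
-/

set_option autoImplicit false

open MeasureTheory ProbabilityTheory

open scoped ENNReal NNReal BigOperators

noncomputable section

namespace Pool.Agent.IR.H92

open Matrix Pool.Agent.Anderson Pool.Agent.Loc Pool.Agent.BED

theorem exp_cmp {C g σ δ μ : ℝ} (hC : 1 ≤ C) (hg : 1 ≤ g) (hσ : 0 < σ) (hμ : 0 < μ) :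
    Real.exp (-((δ / 2 * μ) ^ 2) / (5 * (1.02 * μ * (C + Real.sqrt (C * g))) ^ 2 * σ ^ 2)) ≤
      Real.exp (-(δ ^ 2 / (100 * C ^ 2)) / (σ ^ 2 * g)) := by
  refine Real.exp_le_exp.2 ?_
  rw [neg_div, neg_div, neg_le_neg_iff]
  have h1 : Real.sqrt (C * g) ≤ C * Real.sqrt g := by
    rw [Real.sqrt_mul (by positivity)]
    refine mul_le_mul_of_nonneg_right ?_ (Real.sqrt_nonneg _)
    rw [Real.sqrt_le_left (by positivity)]
    nlinarith
  have h2 : C ≤ C * Real.sqrt g := by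
    have : 1 ≤ Real.sqrt g := Real.one_le_sqrt.2 hg
    nlinarith
  have h3 : (C + Real.sqrt (C * g)) ^ 2 ≤ 4 * C ^ 2 * g := by
    have h4 : C + Real.sqrt (C * g) ≤ 2 * C * Real.sqrt g := by linarith
    have h5 : 0 ≤ C + Real.sqrt (C * g) := by positivity
    calc (C + Real.sqrt (C * g)) ^ 2 ≤ (2 * C * Real.sqrt g) ^ 2 := pow_le_pow_left₀ h5 h4 2
      _ = 4 * C ^ 2 * (Real.sqrt g) ^ 2 := by ring
      _ = 4 * C ^ 2 * g := by rw [Real.sq_sqrt (by linarith)]
  have hC0 : 0 < C + Real.sqrt (C * g) := by positivity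
  have e1 : δ ^ 2 / (100 * C ^ 2) / (σ ^ 2 * g) = δ ^ 2 / (100 * C ^ 2 * σ ^ 2 * g) := by
    field_simp
  have e2 : (δ / 2 * μ) ^ 2 / (5 * (1.02 * μ * (C + Real.sqrt (C * g))) ^ 2 * σ ^ 2) =
      δ ^ 2 / (20.808 * (C + Real.sqrt (C * g)) ^ 2 * σ ^ 2) := by
    rw [div_eq_div_iff (by positivity) (by positivity)]
    ring
  rw [e1, e2]
  refine div_le_div_of_nonneg_left (sq_nonneg δ) (by positivity) ?_
  calc 20.808 * (C + Real.sqrt (C * g)) ^ 2 * σ ^ 2 ≤ 20.808 * (4 * C ^ 2 * g) * σ ^ 2 := by gcongr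
    _ ≤ 100 * C ^ 2 * σ ^ 2 * g := by
        have : 0 ≤ C ^ 2 * g * σ ^ 2 := by positivity
        nlinarith

/-- FLAT2 -/
theorem flat2 : Flat2Stmt := by
  intro d hd δ hδ hδ1
  obtain ⟨C, hC, hSumC⟩ := sumAll d hd
  obtain ⟨c1, C1, hc1, hC1, hflat⟩ := flatAll d hd
  refine ⟨min c1 (δ ^ 2 / (100 * C ^ 2)), C1 + 2, lt_min hc1 (by positivity), by positivity, ?_⟩
  intro M _ t σ p hM ht htM hσ hσ1 hp hp2
  have hgr := one_le_growth d ht
  have hlog := Real.log_nonneg ht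
  have hσ' : (0 : ℝ) < σ := hσ
  have hMpos : (0 : ℝ) < M := by exact_mod_cast Nat.pos_of_ne_zero (NeZero.ne M)
  set c0 : ℝ := min c1 (δ ^ 2 / (100 * C ^ 2)) with hc0
  set Y : ℝ := (σ : ℝ) ^ 2 * growth d t with hY
  have hY0 : 0 < Y := by positivity
  have hexp : ∀ c, c0 ≤ c → Real.exp (-c / Y) ≤ Real.exp (-c0 / Y) := fun c hc =>
    Real.exp_le_exp.2 (div_le_div_of_nonneg_right (neg_le_neg hc) hY0.le)
  set X : ℝ := Real.exp (-c0 / Y) with hX
  have hX0 : 0 < X := Real.exp_pos _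
  set q : ℝ := 2 * Real.exp (-(δ ^ 2 / (100 * C ^ 2)) / Y) with hq
  have hq0 : 0 ≤ q := by positivity
  obtain ⟨p', hp'⟩ : ∃ p' : ℝ, p' = C1 * (1 + Real.log t) * (M : ℝ) ^ d *
    Real.exp (-c1 / ((σ : ℝ) ^ 2 * growth d t)) := ⟨_, rfl⟩
  have hp'0 : 0 ≤ p' := by rw [hp']; positivity
  have hp'X : p' ≤ C1 * (1 + Real.log t) * (M : ℝ) ^ d * X := by
    rw [hp']
    exact mul_le_mul_of_nonneg_left (hexp c1 (min_le_left _ _)) (by positivity)
  have hqX : q ≤ 2 * X := by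
    rw [hq]
    exact mul_le_mul_of_nonneg_left (hexp _ (min_le_right _ _)) (by norm_num)
  have hpq : p' + (M : ℝ) ^ d * q ≤ p := by
    calc p' + (M : ℝ) ^ d * q ≤
          C1 * (1 + Real.log t) * (M : ℝ) ^ d * X + (M : ℝ) ^ d * (2 * X) :=
          add_le_add hp'X (mul_le_mul_of_nonneg_left hqX (by positivity))
      _ ≤ (C1 + 2) * (1 + Real.log t) * (M : ℝ) ^ d * X := by
          have : 0 ≤ (M : ℝ) ^ d * X * Real.log t := by positivity
          linarith only [this]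
      _ = p := by rw [hp]
  have hMq0 : 0 ≤ (M : ℝ) ^ d * q := by positivity
  have hp'p : p' ≤ p := by linarith
  obtain ⟨z, μ₀, hμ1, hμ2, hz, hzd, hPf⟩ := hflat M t σ p' hM ht htM hσ hσ1 hp' (by linarith)
  have hμ₀ : 0 < μ₀ := by linarith
  set v : ℝ≥0 := σ ^ 2 with hv
  have hvv : (v : ℝ) = (σ : ℝ) ^ 2 := by rw [hv]; push_cast; rfl
  set m : ℝ := 1.02 * μ₀ with hm
  set B : ℝ := C * growth d t with hB
  have hB0 : 0 ≤ B := by positivity
  have hm0 : 0 < m := by positivity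
  obtain ⟨F, hF0, hFm, hFlip, -, hFeq⟩ := H61.mcs d M z m B C hm0 hB0 (by linarith)
  have hK : 0 < m * (C + Real.sqrt B) := by positivity
  have hcont := continuous_of_lip hK.le hFlip
  set μ : ℝ := ∫ V, F V ∂(gau d M v) with hμ
  set r : ℝ := δ / 2 * μ₀ with hr
  have hr0 : 0 ≤ r := by positivity
  -- the exceptional set at a point
  set S : Tor d M → Set (Tor d M → ℝ) := fun x => {V | r ≤ |F (tr x V) - μ|} with hS
  have hSp : ∀ x, gau d M v (S x) ≤ ENNReal.ofReal q := by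
    intro x
    have h1 := H55.gc (Tor d M) v F _ hK hFlip r hr0
    have hmeas : MeasurableSet {V : Tor d M → ℝ | r ≤ |F V - μ|} :=
      measurableSet_le measurable_const ((hcont.measurable.sub_const _).abs)
    have h2 : gau d M v (S x) = gau d M v {V : Tor d M → ℝ | r ≤ |F V - μ|} := by
      have h3 := (H61.cov d M z 0 x).2.2.2.2.2 v
      exact h3.measure_preimage hmeas.nullMeasurableSet
    rw [h2]
    refine (show gau d M v {V : Tor d M → ℝ | r ≤ |F V - μ|} ≤ _ from h1).trans ?_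
    refine ENNReal.ofReal_le_ofReal ?_
    rw [hq]
    refine mul_le_mul_of_nonneg_left ?_ (by norm_num)
    rw [hvv]
    exact exp_cmp hC hgr hσ' hμ₀
  -- the exceptional set
  set A : Set (Tor d M → ℝ) := {V | ¬ Flat z μ₀ V} ∪ ⋃ x, S x with hA
  have hAm : gau d M v A ≤ ENNReal.ofReal p :=
    (gau_union hp'0 hq0 hPf hSp).trans (ENNReal.ofReal_le_ofReal hpq)
  have key : ∀ V, V ∉ A → Flat z μ₀ V ∧ ∀ x, DD z V x = F (tr x V) ∧ |DD z V x - μ| < r := by
    intro V hV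
    rw [hA, Set.mem_union, not_or] at hV
    obtain ⟨h1, h2⟩ := hV
    have hf : Flat z μ₀ V := by
      by_contra hc
      exact h1 hc
    refine ⟨hf, fun x => ?_⟩
    obtain ⟨hV1, hV2, hV3⟩ := hf
    have hlo : ∀ y, 0.98 * μ₀ ≤ DD z V y := fun y => by
      have := (abs_le.1 (hV3 y)).1
      linarith
    have hup : ∀ y, DD z V y ≤ m := fun y => by
      have := (abs_le.1 (hV3 y)).2
      rw [hm]
      linarith
    have hgood : V ∈ goodSet z m B C := by
      have h4 := hSumC M z t (0.98 * μ₀) V hM ht htM hz hV1 hV2 (by linarith) (by linarith) hlo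
        (fun y => (hup y).trans (by rw [hm]; linarith))
      exact ⟨hV2, hup, fun y => (h4 y).1, fun y => (h4 y).2⟩
    obtain ⟨-, -, -, hc4, hc5, -⟩ := H61.cov d M z V x
    have h5 := hFeq (tr x V) ((hc5 m B C).2 hgood)
    have h6 : DD z V x = F (tr x V) := by
      rw [h5, hc4 0, add_zero]
    refine ⟨h6, ?_⟩
    have h7 : V ∉ S x := fun hc => h2 (Set.mem_iUnion.2 ⟨x, hc⟩)
    simp only [hS, Set.mem_ofPred_eq, not_le] at h7
    rw [h6]
    exact h7
  -- the good set is not empty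
  have hprob : IsProbabilityMeasure (gau d M v) := gau_isProb v
  obtain ⟨V₀, hV₀⟩ : ∃ V, V ∉ A := by
    by_contra hc
    push Not at hc
    have hAu : A = Set.univ := Set.eq_univ_of_forall hc
    rw [hAu, measure_univ] at hAm
    have : (1 : ℝ≥0∞) ≤ ENNReal.ofReal (1 / 2) := hAm.trans (ENNReal.ofReal_le_ofReal hp2)
    rw [ENNReal.one_le_ofReal] at this
    norm_num at this
  obtain ⟨hf0, hk0⟩ := key V₀ hV₀
  have hr1 : r ≤ 0.01 * μ₀ := mul_le_mul_of_nonneg_right (by linarith only [hδ1]) hμ₀.le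
  have hlow : 0.96 * μ₀ ≤ μ := by
    have h1 := (abs_lt.1 (hk0 0).2).2
    have h2 := (abs_le.1 (hf0.2.2 0)).1
    linarith only [h1, h2, hr1, hμ₀]
  have hupp : μ ≤ 1.03 * μ₀ := by
    have h1 := (abs_lt.1 (hk0 0).2).1
    have h2 := (abs_le.1 (hf0.2.2 0)).2
    linarith only [h1, h2, hr1, hμ₀]
  refine ⟨z, μ, by linarith, by linarith, hz, ?_, ?_⟩
  · refine hzd.trans ?_
    have h1 : Real.sqrt p' ≤ Real.sqrt p := Real.sqrt_le_sqrt hp'p
    have h2 : 0 ≤ (σ : ℝ) ^ 2 + 1 / t + Real.sqrt p := by positivity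
    have h3 : C1 * ((σ : ℝ) ^ 2 + 1 / t + Real.sqrt p') ≤
        C1 * ((σ : ℝ) ^ 2 + 1 / t + Real.sqrt p) :=
      mul_le_mul_of_nonneg_left (by linarith only [h1]) hC1.le
    linarith only [h2, h3]
  · refine le_trans (measure_mono fun V hV => ?_) hAm
    by_contra hVA
    obtain ⟨hf, hk⟩ := key V hVA
    refine hV ⟨hf.1, hf.2.1, fun x => ?_⟩
    refine (hk x).2.le.trans ?_
    have h1 : r ≤ δ / 2 * (2 * μ) :=
      mul_le_mul_of_nonneg_left (by linarith only [hlow, hμ₀]) (by linarith only [hδ])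
    linarith only [h1]

end Pool.Agent.IR.H92
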