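import Pool.Agent.Helper41_IR.Stmts

/-!
# Module PATH of squad IR: the discretised path between two potentials
-/

set_option autoImplicit false

noncomputable section

namespace Pool.Agent.IR.H92

open Matrix Pool.Agent.Anderson Pool.Agent.Loc Pool.Agent.BED

variable {d M : ℕ} [NeZero M]

theorem AP_mulVec_sub (l : ℕ) (E : ℝ) (V U f : Tor d M → ℝ) :
    AP l E V *ᵥ f - AP l E U *ᵥ f = fun x => (U x - V x) * f x := by
  funext x
  unfold AP
  rw [Pi.sub_apply, Matrix.add_mulVec, Matrix.add_mulVec, Pi.add_apply, Pi.add_apply, AM_mulVec,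
    AM_mulVec]
  ring

theorem AP_transpose (l : ℕ) (E : ℝ) (V : Tor d M → ℝ) : (AP l E V)ᵀ = AP l E V := by
  unfold AP
  rw [Matrix.transpose_add, Matrix.transpose_smul, Matrix.transpose_mul,
    Matrix.transpose_transpose]
  congr 1
  ext x y
  exact AM_symm _ _ _ _

/-- the resolvent identity -/
theorem GP_sub {l : ℕ} {E : ℝ} {V U : Tor d M → ℝ} (hV : (AP l E V).PosDef)
    (hU : (AP l E U).PosDef) (g : Tor d M → ℝ) :
    GP l E U *ᵥ g - GP l E V *ᵥ g =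
      GP l E U *ᵥ fun x => (U x - V x) * (GP l E V *ᵥ g) x := by
  rw [← AP_mulVec_sub l E V U (GP l E V *ᵥ g), Matrix.mulVec_sub]
  unfold GP
  rw [mulVec_inv hV, inv_mulVec hU]

theorem ip_GP_sub {l : ℕ} {E : ℝ} {V U : Tor d M → ℝ} (hV : (AP l E V).PosDef)
    (hU : (AP l E U).PosDef) (g : Tor d M → ℝ) :
    ip g (GP l E U *ᵥ g) - ip g (GP l E V *ᵥ g) =
      ∑ x, (U x - V x) * (GP l E V *ᵥ g) x ^ 2 +
        ∑ x, (U x - V x) * (GP l E V *ᵥ g) x * (GP l E U *ᵥ g - GP l E V *ᵥ g) x := by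
  have e1 : AP l E V *ᵥ (GP l E V *ᵥ g) = g := mulVec_inv hV g
  have e2 : AP l E U *ᵥ (GP l E U *ᵥ g) = g := mulVec_inv hU g
  generalize hf : GP l E V *ᵥ g = f at *
  generalize hh : GP l E U *ᵥ g = h at *
  have h1 : ip g h = ip f (AP l E V *ᵥ h) := by
    conv_lhs => rw [← e1]
    rw [ip_mulVec, AP_transpose]
  have h2 : ip g f = ip f (AP l E U *ᵥ h) := by
    conv_lhs => rw [← e2]
    rw [ip_comm]
  rw [h1, h2, ← ip_sub_right, AP_mulVec_sub]
  unfold ip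
  rw [← Finset.sum_add_distrib]
  refine Finset.sum_congr rfl fun x _ => ?_
  rw [Pi.sub_apply]
  ring

/-- the facts from the module GAP that are needed here -/
structure GapF (l : ℕ) (E Z : ℝ) (V : Tor d M → ℝ) : Prop where
  pos : (AP l E V).PosDef
  bd : ∀ f, sqn (GP l E V *ᵥ f) ≤ Z ^ 2 * sqn f

theorem second_order {l : ℕ} {E Z B : ℝ} {V U : Tor d M → ℝ} (hZ : 0 < Z)
    (hV : GapF l E Z V) (hU : GapF l E Z U) (hB : ∀ x, |U x - V x| ≤ B) (g : Tor d M → ℝ) :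
    |∑ x, (U x - V x) * (GP l E V *ᵥ g) x * (GP l E U *ᵥ g - GP l E V *ᵥ g) x| ≤
      B ^ 2 * Z ^ 3 * sqn g := by
  have hs : sqn (GP l E U *ᵥ g - GP l E V *ᵥ g) ≤ Z ^ 2 * (B ^ 2 * sqn (GP l E V *ᵥ g)) := by
    rw [GP_sub hV.pos hU.pos]
    refine (hU.bd _).trans (mul_le_mul_of_nonneg_left ?_ (by positivity))
    unfold sqn
    rw [Finset.mul_sum]
    refine Finset.sum_le_sum fun x _ => ?_
    rw [mul_pow]
    refine mul_le_mul_of_nonneg_right ?_ (sq_nonneg _)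
    rw [← sq_abs (U x - V x)]
    exact pow_le_pow_left₀ (abs_nonneg _) (hB x) 2
  have hf := hV.bd g
  generalize GP l E U *ᵥ g - GP l E V *ᵥ g = k at *
  generalize GP l E V *ᵥ g = f at *
  have h1 : ∀ x, |(U x - V x) * f x * k x| ≤ Z / 2 * (B ^ 2 * f x ^ 2) + 1 / (2 * Z) * k x ^ 2 := by
    intro x
    rw [abs_mul, abs_mul]
    have hb := hB x
    have hb0 : 0 ≤ B := (abs_nonneg _).trans hb
    have h2 : |U x - V x| * |f x| * |k x| ≤ B * |f x| * |k x| := by gcongr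
    refine h2.trans ?_
    have h3 : 0 ≤ 1 / (2 * Z) * (Z * (B * |f x|) - |k x|) ^ 2 := by positivity
    have h4 : 1 / (2 * Z) * (Z * (B * |f x|) - |k x|) ^ 2 =
        Z / 2 * (B ^ 2 * f x ^ 2) + 1 / (2 * Z) * k x ^ 2 - B * |f x| * |k x| := by
      rw [← sq_abs (f x), ← sq_abs (k x)]
      field_simp
      ring
    linarith
  calc |∑ x, (U x - V x) * f x * k x| ≤ ∑ x, |(U x - V x) * f x * k x| :=
        Finset.abs_sum_le_sum_abs _ _
    _ ≤ ∑ x, (Z / 2 * (B ^ 2 * f x ^ 2) + 1 / (2 * Z) * k x ^ 2) :=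
        Finset.sum_le_sum fun x _ => h1 x
    _ = Z / 2 * (B ^ 2 * sqn f) + 1 / (2 * Z) * sqn k := by
        unfold sqn
        simp only [Finset.sum_add_distrib, Finset.mul_sum]
    _ ≤ Z / 2 * (B ^ 2 * sqn f) + 1 / (2 * Z) * (Z ^ 2 * (B ^ 2 * sqn f)) := by gcongr
    _ = Z * B ^ 2 * sqn f := by field_simp; ring
    _ ≤ Z * B ^ 2 * (Z ^ 2 * sqn g) := by gcongr
    _ = B ^ 2 * Z ^ 3 * sqn g := by ring

theorem ip_BB (l : ℕ) (E : ℝ) (V w : Tor d M → ℝ) :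
    ip w (BB l E V *ᵥ w) =
      sL d l * ip ((QM d M l)ᵀ *ᵥ w) (GP l E V *ᵥ ((QM d M l)ᵀ *ᵥ w)) := by
  unfold BB
  rw [Matrix.smul_mulVec, ip_smul_right, ← Matrix.mulVec_mulVec, ← Matrix.mulVec_mulVec, ip_mulVec]

/-- one step of the path -/
theorem one_step {l : ℕ} {E Z S a ρ K : ℝ} {V U D w : Tor d M → ℝ} (hl : 1 ≤ l) (hZ : 1 ≤ Z)
    (hsZ : sL d l * Z = 2) (hS : 1 ≤ S) (ha : 0 ≤ a) (ha2 : a ≤ 2)
    (hV : GapF l E Z V) (hU : GapF l E Z U) (hVS : ∀ x, |V x| ≤ S) (hDS : ∀ x, |D x| ≤ 2 * S)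
    (hUV : ∀ x, U x = Real.cos a * V x + Real.sin a * D x) (hK : 0 ≤ ρ * K)
    (hdB : |dB l E V D w| ≤ ρ * K) :
    |ip w (BB l E U *ᵥ w) - ip w (BB l E V *ᵥ w)| ≤ a * (ρ * K) + 19 * a ^ 2 * S ^ 2 * Z ^ 2 * sqn w := by
  have hs0 : 0 ≤ sL d l := by unfold sL; positivity
  have hcos : 1 - a ^ 2 / 2 ≤ Real.cos a := Real.one_sub_sq_div_two_le_cos
  have hcos1 : Real.cos a ≤ 1 := Real.cos_le_one a
  have hsin0 : |Real.sin a| ≤ a := by
    have := Real.abs_sin_le_abs (x := a)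
    rwa [abs_of_nonneg ha] at this
  rw [ip_BB, ip_BB, ← mul_sub, ip_GP_sub hV.pos hU.pos]
  have hg : sqn ((QM d M l)ᵀ *ᵥ w) ≤ sqn w := sqn_QMt_le hl w
  have hB : ∀ x, |U x - V x| ≤ 3 * a * S := by
    intro x
    have e : U x - V x = -((1 - Real.cos a) * V x) + Real.sin a * D x := by rw [hUV]; ring
    rw [e]
    refine (abs_add_le _ _).trans ?_
    rw [abs_neg, abs_mul, abs_mul, abs_of_nonneg (by linarith : 0 ≤ 1 - Real.cos a)]
    have h1 : (1 - Real.cos a) * |V x| ≤ (a ^ 2 / 2) * S :=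
      mul_le_mul (by linarith) (hVS x) (abs_nonneg _) (by positivity)
    have h2 : |Real.sin a| * |D x| ≤ a * (2 * S) := mul_le_mul hsin0 (hDS x) (abs_nonneg _) ha
    have h3 : a ^ 2 / 2 * S ≤ a * S := by
      have : a ^ 2 / 2 ≤ a := by nlinarith
      exact mul_le_mul_of_nonneg_right this (by linarith)
    linarith
  have h2nd := second_order (by linarith) hV hU hB ((QM d M l)ᵀ *ᵥ w)
  have hfb := hV.bd ((QM d M l)ᵀ *ᵥ w)
  have hdB' : dB l E V D w = sL d l * ∑ y, D y * ((GP l E V *ᵥ ((QM d M l)ᵀ *ᵥ w)) y) ^ 2 := rfl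
  rw [hdB'] at hdB
  generalize hX2 : ∑ x, (U x - V x) * (GP l E V *ᵥ ((QM d M l)ᵀ *ᵥ w)) x *
    (GP l E U *ᵥ ((QM d M l)ᵀ *ᵥ w) - GP l E V *ᵥ ((QM d M l)ᵀ *ᵥ w)) x = X2 at *
  generalize GP l E V *ᵥ ((QM d M l)ᵀ *ᵥ w) = f at *
  generalize (QM d M l)ᵀ *ᵥ w = g at *
  have e1 : ∑ x, (U x - V x) * f x ^ 2 =
      -((1 - Real.cos a) * ∑ x, V x * f x ^ 2) + Real.sin a * ∑ x, D x * f x ^ 2 := by
    rw [Finset.mul_sum, Finset.mul_sum, ← Finset.sum_neg_distrib, ← Finset.sum_add_distrib]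
    exact Finset.sum_congr rfl fun x _ => by rw [hUV]; ring
  have h3 : |∑ x, V x * f x ^ 2| ≤ S * sqn f := by
    refine (Finset.abs_sum_le_sum_abs _ _).trans ?_
    unfold sqn
    rw [Finset.mul_sum]
    refine Finset.sum_le_sum fun x _ => ?_
    rw [abs_mul, abs_of_nonneg (sq_nonneg (f x))]
    exact mul_le_mul_of_nonneg_right (hVS x) (sq_nonneg _)
  have hw0 := sqn_nonneg w
  have hf2 : sqn f ≤ Z ^ 2 * sqn w := hfb.trans (mul_le_mul_of_nonneg_left hg (by positivity))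
  have hX2' : |X2| ≤ (3 * a * S) ^ 2 * Z ^ 3 * sqn w :=
    h2nd.trans (mul_le_mul_of_nonneg_left hg (by positivity))
  have t1 : |sL d l * ((1 - Real.cos a) * ∑ x, V x * f x ^ 2)| ≤ a ^ 2 * S ^ 2 * Z ^ 2 * sqn w := by
    rw [abs_mul, abs_mul, abs_of_nonneg hs0, abs_of_nonneg (by linarith : 0 ≤ 1 - Real.cos a)]
    calc sL d l * ((1 - Real.cos a) * |∑ x, V x * f x ^ 2|) ≤
          sL d l * ((a ^ 2 / 2) * (S * (Z ^ 2 * sqn w))) := by
          refine mul_le_mul_of_nonneg_left ?_ hs0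
          refine mul_le_mul (by linarith) (h3.trans ?_) (abs_nonneg _) (by positivity)
          exact mul_le_mul_of_nonneg_left hf2 (by linarith)
      _ = (sL d l * Z) * (a ^ 2 / 2) * S * Z * sqn w := by ring
      _ = a ^ 2 * (S * Z) * sqn w := by rw [hsZ]; ring
      _ ≤ a ^ 2 * (S ^ 2 * Z ^ 2) * sqn w := by
          have : S * Z ≤ S ^ 2 * Z ^ 2 := by
            have h5 : S ≤ S ^ 2 := by nlinarith
            have h6 : Z ≤ Z ^ 2 := by nlinarith
            exact mul_le_mul h5 h6 (by linarith) (by positivity)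
          gcongr
      _ = a ^ 2 * S ^ 2 * Z ^ 2 * sqn w := by ring
  have t2 : |sL d l * (Real.sin a * ∑ x, D x * f x ^ 2)| ≤ a * (ρ * K) := by
    rw [mul_left_comm, abs_mul]
    exact mul_le_mul hsin0 hdB (abs_nonneg _) ha
  have t3 : |sL d l * X2| ≤ 18 * a ^ 2 * S ^ 2 * Z ^ 2 * sqn w := by
    rw [abs_mul, abs_of_nonneg hs0]
    calc sL d l * |X2| ≤ sL d l * ((3 * a * S) ^ 2 * Z ^ 3 * sqn w) :=
          mul_le_mul_of_nonneg_left hX2' hs0
      _ = (sL d l * Z) * (9 * a ^ 2 * S ^ 2 * Z ^ 2 * sqn w) := by ring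
      _ = 18 * a ^ 2 * S ^ 2 * Z ^ 2 * sqn w := by rw [hsZ]; ring
  rw [e1]
  have e2 : sL d l * (-((1 - Real.cos a) * ∑ x, V x * f x ^ 2) + Real.sin a * ∑ x, D x * f x ^ 2 + X2)
      = -(sL d l * ((1 - Real.cos a) * ∑ x, V x * f x ^ 2)) +
        sL d l * (Real.sin a * ∑ x, D x * f x ^ 2) + sL d l * X2 := by ring
  rw [e2]
  refine (abs_add_three _ _ _).trans ?_
  rw [abs_neg]
  linarith

theorem rotV_zero (V V' : Tor d M → ℝ) : rotV 0 V V' = V := by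
  funext x; simp [rotV]

theorem rotV_end {N : ℕ} (hN : 1 ≤ N) (V V' : Tor d M → ℝ) : rotV (ang N N) V V' = V' := by
  have : ang N N = Real.pi / 2 := by
    unfold ang
    have : (N : ℝ) ≠ 0 := by positivity
    field_simp
  funext x; simp [rotV, this]

theorem rotV_add (α a : ℝ) (V V' : Tor d M → ℝ) (x : Tor d M) :
    rotV (α + a) V V' x = Real.cos a * rotV α V V' x + Real.sin a * rotD α V V' x := by
  unfold rotV rotD
  rw [Real.cos_add, Real.sin_add]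
  ring

/-- PATH -/
theorem path (hGap : GapStmt) (hFour : FourStmt) : PathStmt := by
  intro d hd
  refine ⟨1216 * (2 * d + 1) ^ 2 * (d : ℝ) ^ 2, by positivity, ?_⟩
  intro M l _ z μ E b ε ρ N V V' hP hε hε1 hρ hN hCN hflat hdB w
  set S : ℝ := 2 * d + 1 with hS
  set Z : ℝ := (d : ℝ) * (l : ℝ) ^ 2 with hZ
  have hd1 : (1 : ℝ) ≤ d := by exact_mod_cast hd
  have hl1 : (1 : ℝ) ≤ l := by exact_mod_cast hP.hl
  have hN1 : (1 : ℝ) ≤ N := by exact_mod_cast hN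
  have hS1 : 1 ≤ S := by rw [hS]; linarith
  have hZ1 : 1 ≤ Z := by
    rw [hZ]
    have : (1 : ℝ) ≤ (l : ℝ) ^ 2 := one_le_pow₀ hl1
    nlinarith
  have hsZ : sL d l * Z = 2 := by
    unfold sL
    rw [hZ]
    field_simp
  set a : ℝ := Real.pi / (2 * N) with ha
  have ha0 : 0 ≤ a := by rw [ha]; positivity
  have hpi : Real.pi ≤ 4 := Real.pi_le_four
  have hNa : (N : ℝ) * a ≤ 2 := by
    rw [ha]
    have : (N : ℝ) * (Real.pi / (2 * N)) = Real.pi / 2 := by field_simp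
    rw [this]; linarith
  have ha2 : a ≤ 2 := by
    have : a ≤ N * a := by nlinarith
    linarith
  have hNK0 : 0 ≤ NK b ε w := NK_nonneg b ε w
  have hgf : ∀ j ≤ N, GapF l E Z (rotV (ang N j) V V') := fun j hj => by
    obtain ⟨-, h2, -, h4, -⟩ := hGap d M l z μ E _ hP (hflat j hj)
    exact ⟨h2, h4⟩
  have hVj : ∀ j ≤ N, ∀ x, |rotV (ang N j) V V' x| ≤ S := fun j hj x =>
    (hflat j hj).abs_le hP.hz x
  have hV0 : ∀ x, |V x| ≤ S := by
    have h := hVj 0 (Nat.zero_le _)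
    have e : ang N 0 = 0 := by unfold ang; simp
    rw [e, rotV_zero] at h
    exact h
  have hV1 : ∀ x, |V' x| ≤ S := by
    have h := hVj N le_rfl
    rw [rotV_end hN] at h
    exact h
  have hD : ∀ α x, |rotD α V V' x| ≤ 2 * S := by
    intro α x
    unfold rotD
    refine (abs_add_le _ _).trans ?_
    rw [abs_mul, abs_mul, abs_neg]
    have h1 : |Real.sin α| * |V x| ≤ 1 * S :=
      mul_le_mul (Real.abs_sin_le_one α) (hV0 x) (abs_nonneg _) zero_le_one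
    have h2 : |Real.cos α| * |V' x| ≤ 1 * S :=
      mul_le_mul (Real.abs_cos_le_one α) (hV1 x) (abs_nonneg _) zero_le_one
    linarith
  have hstep : ∀ j < N, |ip w (BB l E (rotV (ang N (j + 1)) V V') *ᵥ w) -
      ip w (BB l E (rotV (ang N j) V V') *ᵥ w)| ≤
        a * (ρ * NK b ε w) + 19 * a ^ 2 * S ^ 2 * Z ^ 2 * sqn w := by
    intro j hj
    refine one_step hP.hl hZ1 hsZ hS1 ha0 ha2 (hgf j hj.le) (hgf (j + 1) hj) (hVj j hj.le)
      (hD (ang N j)) (fun x => ?_) (mul_nonneg hρ hNK0) (hdB j hj w)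
    have e : ang N (j + 1) = ang N j + a := by
      unfold ang
      rw [ha]
      push_cast
      ring
    rw [e]
    exact rotV_add _ _ _ _ _
  have htel : ip w (BB l E V' *ᵥ w) - ip w (BB l E V *ᵥ w) =
      ∑ j ∈ Finset.range N, (ip w (BB l E (rotV (ang N (j + 1)) V V') *ᵥ w) -
        ip w (BB l E (rotV (ang N j) V V') *ᵥ w)) := by
    rw [Finset.sum_range_sub (fun j => ip w (BB l E (rotV (ang N j) V V') *ᵥ w))]
    have e : ang N 0 = 0 := by unfold ang; simp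
    simp only [rotV_end hN, e, rotV_zero]
  have hsqn : ε * sqn w ≤ NK b ε w := by
    rw [← (hFour d M).1 w]
    unfold NK
    rw [Finset.mul_sum]
    refine Finset.sum_le_sum fun θ _ => mul_le_mul_of_nonneg_right ?_ (ft_nonneg _ _)
    refine Real.le_sqrt_of_sq_le ?_
    nlinarith [sq_nonneg (1 - bh b θ)]
  rw [Matrix.sub_mulVec, ip_sub_right, htel]
  calc |∑ j ∈ Finset.range N, (ip w (BB l E (rotV (ang N (j + 1)) V V') *ᵥ w) -
        ip w (BB l E (rotV (ang N j) V V') *ᵥ w))| ≤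
      ∑ j ∈ Finset.range N, (a * (ρ * NK b ε w) + 19 * a ^ 2 * S ^ 2 * Z ^ 2 * sqn w) :=
        (Finset.abs_sum_le_sum_abs _ _).trans
          (Finset.sum_le_sum fun j hj => hstep j (Finset.mem_range.1 hj))
    _ = (N * a) * (ρ * NK b ε w) + 19 * ((N * a) * (N * a)) / N * S ^ 2 * Z ^ 2 * sqn w := by
        rw [Finset.sum_const, Finset.card_range, nsmul_eq_mul]
        field_simp
    _ ≤ 2 * (ρ * NK b ε w) + 19 * (2 * 2) / N * S ^ 2 * Z ^ 2 * sqn w := by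
        have h0 : 0 ≤ N * a := by positivity
        have h1 := sqn_nonneg w
        have h2 : 0 ≤ ρ * NK b ε w := mul_nonneg hρ hNK0
        gcongr
    _ ≤ (2 * ρ + 1 / 16) * NK b ε w := by
        have h1 : 1216 * S ^ 2 * (d : ℝ) ^ 2 * (l : ℝ) ^ 4 ≤ N * ε := by
          rwa [div_le_iff₀ hε] at hCN
        have h2 : 19 * (2 * 2) / N * S ^ 2 * Z ^ 2 * sqn w =
            (76 * S ^ 2 * (d : ℝ) ^ 2 * (l : ℝ) ^ 4 / (N * ε)) * (ε * sqn w) := by
          rw [hZ]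
          field_simp
          ring
        have h3 : 76 * S ^ 2 * (d : ℝ) ^ 2 * (l : ℝ) ^ 4 / (N * ε) ≤ 1 / 16 := by
          rw [div_le_iff₀ (by positivity)]
          linarith
        have h4 : (76 * S ^ 2 * (d : ℝ) ^ 2 * (l : ℝ) ^ 4 / (N * ε)) * (ε * sqn w) ≤
            1 / 16 * NK b ε w :=
          mul_le_mul h3 hsqn (mul_nonneg hε.le (sqn_nonneg w)) (by norm_num)
        rw [h2]
        linarith

end Pool.Agent.IR.H92
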