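import Pool.Agent.Helper41_IR.Stmts
import Pool.Agent.Helper61_BED.Trans

/-!
# Module TRANSP of squad IR: from `ℤ^d` to the torus
-/

set_option autoImplicit false

noncomputable section

namespace Pool.Agent.IR.H92

open Matrix Pool.Agent.Anderson Pool.Agent.Loc Pool.Agent.BED

variable {d M : ℕ}

/-- the cutoff function: `1` for `|y| ≤ L`, `0` for `|y| ≥ 2L` -/
def cut (L : ℕ) (y : Site d) : ℝ := max 0 (min 1 ((2 * L - (sd y 0 : ℝ)) / L))

theorem cut_nonneg (L : ℕ) (y : Site d) : 0 ≤ cut L y := le_max_left _ _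

theorem cut_le_one (L : ℕ) (y : Site d) : cut L y ≤ 1 :=
  max_le zero_le_one (min_le_left _ _)

theorem cut_eq_one {L : ℕ} (hL : 1 ≤ L) {y : Site d} (hy : sd y 0 ≤ L) : cut L y = 1 := by
  have hL' : (0 : ℝ) < L := by exact_mod_cast hL
  have hy' : (sd y 0 : ℝ) ≤ L := by exact_mod_cast hy
  have h : 1 ≤ (2 * L - (sd y 0 : ℝ)) / L := by
    rw [le_div_iff₀ hL']; linarith
  unfold cut
  rw [min_eq_left h, max_eq_right zero_le_one]

theorem cut_eq_zero {L : ℕ} {y : Site d} (hy : 2 * L ≤ sd y 0) : cut L y = 0 := by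
  have hy' : (2 * L : ℝ) ≤ (sd y 0 : ℝ) := by exact_mod_cast hy
  have h : (2 * L - (sd y 0 : ℝ)) / L ≤ 0 :=
    div_nonpos_of_nonpos_of_nonneg (by linarith) (by positivity)
  unfold cut
  exact max_eq_left ((min_le_right _ _).trans h)

theorem cut_sub_le {L : ℕ} (hL : 1 ≤ L) {y y' : Site d} (h : sd y y' ≤ 1) :
    |cut L y - cut L y'| ≤ 1 / L := by
  have hL' : (0 : ℝ) < L := by exact_mod_cast hL
  have h1 : |(sd y 0 : ℝ) - sd y' 0| ≤ 1 := by
    have a1 := sd_triangle y y' 0
    have a2 := sd_triangle y' y 0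
    rw [sd_comm y' y] at a2
    have b1 : (sd y 0 : ℝ) ≤ 1 + sd y' 0 := by exact_mod_cast a1.trans (Nat.add_le_add_right h _)
    have b2 : (sd y' 0 : ℝ) ≤ 1 + sd y 0 := by exact_mod_cast a2.trans (Nat.add_le_add_right h _)
    rw [abs_le]
    constructor <;> linarith
  unfold cut
  have h2 : |(2 * L - (sd y 0 : ℝ)) / L - (2 * L - (sd y' 0 : ℝ)) / L| ≤ 1 / L := by
    rw [← sub_div, abs_div, abs_of_pos hL']
    refine div_le_div_of_nonneg_right ?_ hL'.le
    rw [show (2 * L - (sd y 0 : ℝ)) - (2 * L - (sd y' 0 : ℝ)) = -((sd y 0 : ℝ) - sd y' 0) by ring,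
      abs_neg]
    exact h1
  generalize (2 * L - (sd y 0 : ℝ)) / L = a at *
  generalize (2 * L - (sd y' 0 : ℝ)) / L = b at *
  refine le_trans ?_ h2
  rw [max_comm 0, max_comm 0]
  refine (abs_max_sub_max_le_abs _ _ _).trans ?_
  have h3 := abs_min_sub_min_le_max 1 a 1 b
  simpa using h3

theorem sd_single_add (y : Site d) (i : Fin d) : sd (y + Pi.single i 1) y ≤ 1 := by
  rw [sd_le_iff]
  intro j
  rw [Pi.add_apply, add_sub_cancel_left]
  by_cases h : j = i
  · subst h; simp
  · simp [h]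

theorem sd_single_sub (y : Site d) (i : Fin d) : sd (y - Pi.single i 1) y ≤ 1 := by
  rw [sd_le_iff]
  intro j
  rw [Pi.sub_apply]
  by_cases h : j = i
  · subst h; simp
  · simp [h]

theorem red_rep [NeZero M] (x : Tor d M) : H61.red M (rep x) = x := by
  funext i
  unfold H61.red rep
  exact ZMod.coe_valMinAbs _

theorem rep_red' [NeZero M] {y : Site d} {R : ℕ} (hR : 2 * R < M) (hy : sd y 0 ≤ R) :
    rep (H61.red M y) = y := by
  refine H61.rep_red hR fun i => ?_
  have := sd_le_iff.1 hy i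
  simpa using this

/-- neighbours of a point near the origin -/
theorem rep_add_ev [NeZero M] {R : ℕ} (hR : 2 * (R + 1) < M) {x : Tor d M} (i : Fin d)
    (hx : sd (rep x) 0 ≤ R) : rep (x + ev i) = rep x + Pi.single i 1 := by
  conv_lhs => rw [← red_rep x]
  rw [← H61.red_add]
  refine rep_red' hR ?_
  have h1 := sd_triangle (rep x + Pi.single i 1) (rep x) 0
  have h2 := sd_single_add (rep x) i
  omega

theorem rep_sub_ev [NeZero M] {R : ℕ} (hR : 2 * (R + 1) < M) {x : Tor d M} (i : Fin d)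
    (hx : sd (rep x) 0 ≤ R) : rep (x - ev i) = rep x - Pi.single i 1 := by
  conv_lhs => rw [← red_rep x]
  rw [← H61.red_sub]
  refine rep_red' hR ?_
  have h1 := sd_triangle (rep x - Pi.single i 1) (rep x) 0
  have h2 := sd_single_sub (rep x) i
  omega

/-- neighbours of a point far from the origin -/
theorem far_add [NeZero M] {R : ℕ} (hR : 2 * (R + 1) < M) {x : Tor d M} (i : Fin d)
    (hx : R < sd (rep x) 0) : R ≤ sd (rep (x + ev i)) 0 := by
  by_contra hc
  push Not at hc
  have h := rep_sub_ev hR (x := x + ev i) i hc.le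
  rw [add_sub_cancel_right] at h
  have h1 := sd_triangle (rep (x + ev i) - Pi.single i 1) (rep (x + ev i)) 0
  have h2 := sd_single_sub (rep (x + ev i)) i
  rw [h] at hx
  omega

theorem far_sub [NeZero M] {R : ℕ} (hR : 2 * (R + 1) < M) {x : Tor d M} (i : Fin d)
    (hx : R < sd (rep x) 0) : R ≤ sd (rep (x - ev i)) 0 := by
  by_contra hc
  push Not at hc
  have h := rep_add_ev hR (x := x - ev i) i hc.le
  rw [sub_add_cancel] at h
  have h1 := sd_triangle (rep (x - ev i) + Pi.single i 1) (rep (x - ev i)) 0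
  have h2 := sd_single_add (rep (x - ev i)) i
  rw [h] at hx
  omega

theorem sum_inj_le [NeZero M] (w : L2 d) {g : Tor d M → Site d} (hg : Function.Injective g) :
    ∑ x : Tor d M, ‖w (g x)‖ ^ 2 ≤ ‖w‖ ^ 2 := by
  rw [L2.norm_sq]
  have h := (L2.summable_sq w).sum_le_tsum (Finset.univ.map ⟨g, hg⟩)
    (fun x _ => by positivity)
  rw [Finset.sum_map] at h
  exact h

/-- the commutator term at a point -/
theorem comm_bound {L : ℕ} (hL : 1 ≤ L) (v : Site d → ℂ) (y : Site d) (r : ℂ) :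
    ‖-((cut L y : ℂ) * r) - ∑ i : Fin d,
        (((cut L (y + Pi.single i 1) - cut L y : ℝ) : ℂ) * v (y + Pi.single i 1) +
        ((cut L (y - Pi.single i 1) - cut L y : ℝ) : ℂ) * v (y - Pi.single i 1))‖ ^ 2 ≤
      2 * ‖r‖ ^ 2 + 4 * d / (L : ℝ) ^ 2 *
        ∑ i : Fin d, (‖v (y + Pi.single i 1)‖ ^ 2 + ‖v (y - Pi.single i 1)‖ ^ 2) := by
  have hL' : (0 : ℝ) < L := by exact_mod_cast hL
  have h1 : ‖-((cut L y : ℂ) * r)‖ ≤ ‖r‖ := by
    rw [norm_neg, norm_mul, Complex.norm_real, Real.norm_of_nonneg (cut_nonneg L y)]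
    exact mul_le_of_le_one_left (norm_nonneg _) (cut_le_one L y)
  set A : ℝ := ∑ i : Fin d, (‖v (y + Pi.single i 1)‖ + ‖v (y - Pi.single i 1)‖) with hA
  have hA0 : 0 ≤ A := by positivity
  have h2 : ‖∑ i : Fin d,
        (((cut L (y + Pi.single i 1) - cut L y : ℝ) : ℂ) * v (y + Pi.single i 1) +
        ((cut L (y - Pi.single i 1) - cut L y : ℝ) : ℂ) * v (y - Pi.single i 1))‖ ≤ 1 / L * A := by
    rw [hA, Finset.mul_sum]
    refine (norm_sum_le _ _).trans (Finset.sum_le_sum fun i _ => ?_)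
    refine (norm_add_le _ _).trans ?_
    rw [mul_add, norm_mul, norm_mul, Complex.norm_real, Complex.norm_real, Real.norm_eq_abs,
      Real.norm_eq_abs]
    exact add_le_add
      (mul_le_mul_of_nonneg_right (cut_sub_le hL (sd_single_add y i)) (norm_nonneg _))
      (mul_le_mul_of_nonneg_right (cut_sub_le hL (sd_single_sub y i)) (norm_nonneg _))
  have h3 : A ^ 2 ≤ 2 * d * ∑ i : Fin d, (‖v (y + Pi.single i 1)‖ ^ 2 + ‖v (y - Pi.single i 1)‖ ^ 2) := by
    have c1 := Finset.sum_mul_sq_le_sq_mul_sq (Finset.univ : Finset (Fin d)) (fun _ => (1 : ℝ))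
      (fun i => ‖v (y + Pi.single i 1)‖ + ‖v (y - Pi.single i 1)‖)
    simp only [one_mul, one_pow, Finset.sum_const, Finset.card_univ, Fintype.card_fin,
      nsmul_eq_mul, mul_one] at c1
    refine c1.trans ?_
    rw [mul_comm (2 : ℝ) d, mul_assoc]
    refine mul_le_mul_of_nonneg_left ?_ (by positivity)
    rw [Finset.mul_sum]
    refine Finset.sum_le_sum fun i _ => ?_
    nlinarith [sq_nonneg (‖v (y + Pi.single i 1)‖ - ‖v (y - Pi.single i 1)‖)]
  have h4 : ‖-((cut L y : ℂ) * r) - ∑ i : Fin d,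
        (((cut L (y + Pi.single i 1) - cut L y : ℝ) : ℂ) * v (y + Pi.single i 1) +
        ((cut L (y - Pi.single i 1) - cut L y : ℝ) : ℂ) * v (y - Pi.single i 1))‖ ≤
      ‖r‖ + 1 / L * A := (norm_sub_le _ _).trans (add_le_add h1 h2)
  refine (pow_le_pow_left₀ (norm_nonneg _) h4 2).trans ?_
  have h5 : (‖r‖ + 1 / L * A) ^ 2 ≤ 2 * ‖r‖ ^ 2 + 2 / (L : ℝ) ^ 2 * A ^ 2 := by
    have e : 2 / (L : ℝ) ^ 2 * A ^ 2 = 2 * (1 / L * A) ^ 2 := by ring
    rw [e]
    nlinarith [sq_nonneg (‖r‖ - 1 / L * A)]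
  refine h5.trans ?_
  have h6 : 2 / (L : ℝ) ^ 2 * A ^ 2 ≤ 2 / (L : ℝ) ^ 2 * (2 * d * ∑ i : Fin d,
      (‖v (y + Pi.single i 1)‖ ^ 2 + ‖v (y - Pi.single i 1)‖ ^ 2)) :=
    mul_le_mul_of_nonneg_left h3 (by positivity)
  have e6 : 2 / (L : ℝ) ^ 2 * (2 * d * ∑ i : Fin d,
      (‖v (y + Pi.single i 1)‖ ^ 2 + ‖v (y - Pi.single i 1)‖ ^ 2)) = 4 * d / (L : ℝ) ^ 2 *
        ∑ i : Fin d, (‖v (y + Pi.single i 1)‖ ^ 2 + ‖v (y - Pi.single i 1)‖ ^ 2) := by
    ring
  linarith

/-- TRANSP -/
theorem transp : TranspStmt := by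
  intro d M L _ hL hM W E v r hv
  have hR : 2 * (2 * L + 1) < M := by omega
  set U : Tor d M → ℂ := fun x => (cut L (rep x) : ℂ) * v (rep x) with hU
  set R : Tor d M → ℂ := fun x => ((E : ℂ) - (W (rep x) : ℂ)) * U x -
    ∑ i : Fin d, (U (x + ev i) + U (x - ev i)) with hRdef
  refine ⟨fun x => (U x).re, fun x => (U x).im, fun x => (R x).re, fun x => (R x).im, ?_, ?_, ?_, ?_,
    ?_⟩
  · funext x
    rw [AM_mulVec, hRdef]
    simp only [Complex.sub_re, Complex.mul_re, Complex.ofReal_re, Complex.sub_im,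
      Complex.ofReal_im, sub_zero, zero_mul, Complex.re_sum, Complex.add_re]
  · funext x
    rw [AM_mulVec, hRdef]
    simp only [Complex.sub_re, Complex.mul_im, Complex.ofReal_re, Complex.sub_im,
      Complex.ofReal_im, sub_zero, zero_mul, Complex.im_sum, Complex.add_im, add_zero]
  · have h1 : ∀ x, (U x).re ^ 2 + (U x).im ^ 2 ≤ ‖v (rep x)‖ ^ 2 := by
      intro x
      have e : (U x).re ^ 2 + (U x).im ^ 2 = ‖U x‖ ^ 2 := by
        rw [← Complex.normSq_eq_norm_sq, Complex.normSq_apply]; ring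
      rw [e]
      refine pow_le_pow_left₀ (norm_nonneg _) ?_ 2
      rw [hU]
      simp only [norm_mul, Complex.norm_real]
      rw [Real.norm_of_nonneg (cut_nonneg _ _)]
      exact mul_le_of_le_one_left (norm_nonneg _) (cut_le_one _ _)
    unfold sqn
    rw [← Finset.sum_add_distrib]
    exact (Finset.sum_le_sum fun x _ => h1 x).trans (H61.sum_rep_le v)
  · have h1 : ∀ x, (R x).re ^ 2 + (R x).im ^ 2 ≤ 2 * ‖r (rep x)‖ ^ 2 + 4 * d / (L : ℝ) ^ 2 *
        ∑ i : Fin d, (‖v (rep x + Pi.single i 1)‖ ^ 2 + ‖v (rep x - Pi.single i 1)‖ ^ 2) := by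
      intro x
      have e : (R x).re ^ 2 + (R x).im ^ 2 = ‖R x‖ ^ 2 := by
        rw [← Complex.normSq_eq_norm_sq, Complex.normSq_apply]; ring
      rw [e]
      rcases le_or_gt (sd (rep x) 0) (2 * L) with hx | hx
      · have e2 : R x = -((cut L (rep x) : ℂ) * r (rep x)) - ∑ i : Fin d,
            (((cut L (rep x + Pi.single i 1) - cut L (rep x) : ℝ) : ℂ) * v (rep x + Pi.single i 1) +
            ((cut L (rep x - Pi.single i 1) - cut L (rep x) : ℝ) : ℂ) *
              v (rep x - Pi.single i 1)) := by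
          have e3 : ∀ i, U (x + ev i) = (cut L (rep x + Pi.single i 1) : ℂ) *
              v (rep x + Pi.single i 1) := fun i => by
            rw [hU]; simp only [rep_add_ev hR i hx]
          have e4 : ∀ i, U (x - ev i) = (cut L (rep x - Pi.single i 1) : ℂ) *
              v (rep x - Pi.single i 1) := fun i => by
            rw [hU]; simp only [rep_sub_ev hR i hx]
          have e5 := hv (rep x)
          rw [hRdef]
          simp only [e3, e4]
          rw [← e5]
          unfold lap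
          rw [hU]
          simp only [Complex.ofReal_sub, sub_mul, Finset.sum_add_distrib, Finset.sum_sub_distrib,
            ← Finset.mul_sum]
          ring
        rw [e2]
        exact comm_bound hL (fun y => v y) (rep x) (r (rep x))
      · have e3 : U x = 0 := by
          rw [hU]; simp only [cut_eq_zero hx.le]; simp
        have e4 : ∀ i, U (x + ev i) = 0 := fun i => by
          rw [hU]; simp only [cut_eq_zero (far_add hR i hx)]; simp
        have e5 : ∀ i, U (x - ev i) = 0 := fun i => by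
          rw [hU]; simp only [cut_eq_zero (far_sub hR i hx)]; simp
        have e6 : R x = 0 := by
          rw [hRdef]; simp only [e3, e4, e5]; simp
        rw [e6, norm_zero, zero_pow two_ne_zero]
        positivity
    unfold sqn
    rw [← Finset.sum_add_distrib]
    refine (Finset.sum_le_sum fun x _ => h1 x).trans ?_
    rw [Finset.sum_add_distrib, ← Finset.mul_sum, ← Finset.mul_sum, Finset.sum_comm]
    have h2 : ∀ i : Fin d, ∑ x : Tor d M, (‖v (rep x + Pi.single i 1)‖ ^ 2 +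
        ‖v (rep x - Pi.single i 1)‖ ^ 2) ≤ 2 * ‖v‖ ^ 2 := by
      intro i
      rw [Finset.sum_add_distrib, two_mul]
      refine add_le_add (sum_inj_le v ?_) (sum_inj_le v ?_)
      · exact (add_left_injective _).comp H61.rep_inj
      · exact (sub_left_injective).comp H61.rep_inj
    have h3 : ∑ i : Fin d, ∑ x : Tor d M, (‖v (rep x + Pi.single i 1)‖ ^ 2 +
        ‖v (rep x - Pi.single i 1)‖ ^ 2) ≤ d * (2 * ‖v‖ ^ 2) := by
      refine (Finset.sum_le_sum fun i _ => h2 i).trans ?_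
      rw [Finset.sum_const, Finset.card_univ, Fintype.card_fin, nsmul_eq_mul]
    refine (add_le_add (mul_le_mul_of_nonneg_left (H61.sum_rep_le r) (by norm_num))
      (mul_le_mul_of_nonneg_left h3 (by positivity))).trans ?_
    refine le_of_eq ?_
    ring
  · intro x hx
    have hx' : sd x 0 ≤ L := sd_le_iff.2 fun i => by simpa using hx i
    have e1 : rep (H61.red M x) = x := rep_red' (R := L) (by omega) hx'
    have e2 : U (H61.red M x) = v x := by
      rw [hU]; simp only [e1, cut_eq_one hL hx']; simp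
    have e : (U (H61.red M x)).re ^ 2 + (U (H61.red M x)).im ^ 2 = ‖U (H61.red M x)‖ ^ 2 := by
      rw [← Complex.normSq_eq_norm_sq, Complex.normSq_apply]; ring
    simp only
    rw [e, e2]

end Pool.Agent.IR.H92
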